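import Mathlib

/-!
# MP_11aba7_al: short exact sequences among bricks of a brick sequence of `F(w)`

In type `D₄` we give a reduced word whose brick sequence has `dim B₅ = dim B₁ + dim B₉`, but there
is no short exact sequence `0 → B₁ → B₅ → B₉ → 0`.
-/

set_option autoImplicit false

namespace Pool.Agent.Results.MP_11aba7_al.TypeD4

open MulOpposite

universe u

/-- The generators of the path algebra of the double of a quiver with vertex set `V` and arrow set
`E`: the trivial paths, the arrows `a` and the added arrows `a*`. -/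
inductive Gen (V E : Type)
  | vert (v : V)
  | arr (a : E)
  | star (a : E)

/-- The defining relations of the preprojective algebra of a quiver with vertices `V`, arrows `E`,
source map `s` and target map `t`: the trivial paths are orthogonal idempotents with sum one, every
arrow `a` satisfies `e_{s a} a e_{t a} = a`, every arrow `a*` satisfies `e_{t a} a* e_{s a} = a*`, and
`∑ₐ (a a* - a* a) = 0`. -/
inductive PreRel (k : Type u) [Field k] (V E : Type) [Fintype V] [Fintype E] (s t : E → V) :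
    FreeAlgebra k (Gen V E) → FreeAlgebra k (Gen V E) → Prop
  | idem (v : V) : PreRel k V E s t
      (FreeAlgebra.ι k (Gen.vert v) * FreeAlgebra.ι k (Gen.vert v)) (FreeAlgebra.ι k (Gen.vert v))
  | orth (v w : V) (h : v ≠ w) : PreRel k V E s t
      (FreeAlgebra.ι k (Gen.vert v) * FreeAlgebra.ι k (Gen.vert w)) 0
  | one : PreRel k V E s t (∑ v : V, FreeAlgebra.ι k (Gen.vert v)) 1
  | arr (a : E) : PreRel k V E s t
      (FreeAlgebra.ι k (Gen.vert (s a)) * FreeAlgebra.ι k (Gen.arr a) *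
        FreeAlgebra.ι k (Gen.vert (t a))) (FreeAlgebra.ι k (Gen.arr a))
  | star (a : E) : PreRel k V E s t
      (FreeAlgebra.ι k (Gen.vert (t a)) * FreeAlgebra.ι k (Gen.star a) *
        FreeAlgebra.ι k (Gen.vert (s a))) (FreeAlgebra.ι k (Gen.star a))
  | preproj : PreRel k V E s t
      (∑ a : E, (FreeAlgebra.ι k (Gen.arr a) * FreeAlgebra.ι k (Gen.star a) -
        FreeAlgebra.ι k (Gen.star a) * FreeAlgebra.ι k (Gen.arr a))) 0

variable (k : Type u) [Field k]

/-- The preprojective algebra of type `D₄`: the quiver has vertices `0, 1, 2, 3` and three arrows,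
from the central vertex `0` to the vertices `1, 2, 3`. -/
def Pi4 : Type u := RingQuot (PreRel k (Fin 4) (Fin 3) (fun _ => 0) Fin.succ)

noncomputable instance ringPi : Ring (Pi4 k) :=
  RingQuot.instRing (PreRel k (Fin 4) (Fin 3) (fun _ => 0) Fin.succ)

noncomputable instance algPi : Algebra k (Pi4 k) :=
  RingQuot.instAlgebra (PreRel k (Fin 4) (Fin 3) (fun _ => 0) Fin.succ)

/-- The quotient map from the free algebra. -/
noncomputable def mkPi : FreeAlgebra k (Gen (Fin 4) (Fin 3)) →ₐ[k] Pi4 k :=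
  RingQuot.mkAlgHom k (PreRel k (Fin 4) (Fin 3) (fun _ => 0) Fin.succ)

/-- The class of a generator. -/
noncomputable def gen (g : Gen (Fin 4) (Fin 3)) : Pi4 k := mkPi k (FreeAlgebra.ι k g)

/-- The idempotent of a vertex. -/
noncomputable def ve (i : Fin 4) : Pi4 k := gen k (Gen.vert i)

/-- The two-sided ideal `I_i` generated by `1 - e_i`. -/
noncomputable def idl (i : Fin 4) : Submodule k (Pi4 k) :=
  Submodule.span k {z | ∃ a b : Pi4 k, z = a * (1 - ve k i) * b}

/-- For a word `u₁, …, u_m`, given as the reversed list `[u_m, …, u₁]`, the ideal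
`I(s_{u₁} ⋯ s_{u_m}) = I_{u_m} ⋯ I_{u₁}`. -/
noncomputable def wIdl (l : List (Fin 4)) : Submodule k (Pi4 k) :=
  l.foldr (fun u J => idl k u * J) ⊤

theorem wIdl_mul_mem (l : List (Fin 4)) (x : Pi4 k) (hx : x ∈ wIdl k l) (a : Pi4 k) :
    x * a ∈ wIdl k l := by
  induction l generalizing x with
  | nil => exact Submodule.mem_top
  | cons u l ih =>
    refine Submodule.mul_induction_on hx (fun y hy z hz => ?_) (fun y z hy hz => ?_)
    · rw [mul_assoc]
      exact Submodule.mul_mem_mul hy (ih z hz)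
    · rw [add_mul]
      exact Submodule.add_mem _ hy hz

/-- The ideal `I(s_{u₁} ⋯ s_{u_m})` as a right ideal. -/
noncomputable def rIdl (l : List (Fin 4)) : Submodule (Pi4 k)ᵐᵒᵖ (Pi4 k) where
  carrier := wIdl k l
  add_mem' := (wIdl k l).add_mem
  zero_mem' := (wIdl k l).zero_mem
  smul_mem' a x hx := wIdl_mul_mem k l x hx a.unop

/-- The quotient `I(l) / I(l')` (of right ideals; more precisely `I(l) / (I(l) ∩ I(l'))`). -/
def QQ (l l' : List (Fin 4)) : Type u := rIdl k l ⧸ (rIdl k l').submoduleOf (rIdl k l)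

noncomputable instance (l l' : List (Fin 4)) : AddCommGroup (QQ k l l') :=
  Submodule.Quotient.addCommGroup _

noncomputable instance (l l' : List (Fin 4)) : Module (Pi4 k)ᵐᵒᵖ (QQ k l l') :=
  Submodule.Quotient.module _

noncomputable instance (l l' : List (Fin 4)) : Module k (QQ k l l') :=
  Submodule.Quotient.module' _

instance (l l' : List (Fin 4)) : IsScalarTower k (Pi4 k)ᵐᵒᵖ (QQ k l l') :=
  inferInstanceAs (IsScalarTower k (Pi4 k)ᵐᵒᵖ (rIdl k l ⧸ (rIdl k l').submoduleOf (rIdl k l)))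

/-- The right module `B_m = I(s_{u₁} ⋯ s_{u_{m-1}}) / I(s_{u₁} ⋯ s_{u_m})` attached to the word
`w = [u₁, …, u_l]`. -/
abbrev B (w : List (Fin 4)) (m : ℕ) : Type u :=
  QQ k (w.take (m - 1)).reverse (w.take m).reverse

/-- The multiplicity `[M : S_i] = dim_k (M e_i)` of the simple module at the vertex `i`. -/
noncomputable def dimv (M : Type u) [AddCommGroup M] [Module k M] [Module (Pi4 k)ᵐᵒᵖ M]
    [IsScalarTower k (Pi4 k)ᵐᵒᵖ M] (i : Fin 4) : ℕ :=
  Module.finrank k (LinearMap.range (Algebra.lsmul k k M (op (ve k i))))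

/-- The simple reflection `s_i` on the root lattice `ℤ⁴` of type `D₄`, in the basis of the simple
roots: `s_i(v) = v - (∑_j A_{ij} v_j) α_i` with `A` the Cartan matrix. -/
def srefl (i : Fin 4) (v : Fin 4 → ℤ) : Fin 4 → ℤ := fun j =>
  if j = i then v j - ∑ l : Fin 4, (if l = i then 2 else if l = 0 ∨ i = 0 then -1 else 0) * v l
  else v j

/-- The action of the Weyl group element `s_{u₁} ⋯ s_{u_l}` on the root lattice. -/
def wact (l : List (Fin 4)) (v : Fin 4 → ℤ) : Fin 4 → ℤ := l.foldr srefl v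

/-- The word is reduced: no shorter word gives the same element of the Weyl group. -/
def IsReducedWord (w : List (Fin 4)) : Prop :=
  ∀ w' : List (Fin 4), wact w' = wact w → w.length ≤ w'.length

/-- The word `s₀ s₁ s₂ s₃ s₀ s₃ s₂ s₀ s₁`. -/
def word : List (Fin 4) := [0, 1, 2, 3, 0, 3, 2, 0, 1]

/-! ### Basic identities -/

/-- The arrow `0 → i`. -/
noncomputable def aa (i : Fin 3) : Pi4 k := gen k (Gen.arr i)

/-- The arrow `i → 0`. -/
noncomputable def bb (i : Fin 3) : Pi4 k := gen k (Gen.star i)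

theorem mk_rel {x y : FreeAlgebra k (Gen (Fin 4) (Fin 3))}
    (h : PreRel k (Fin 4) (Fin 3) (fun _ => 0) Fin.succ x y) :
    mkPi k x = mkPi k y :=
  RingQuot.mkAlgHom_rel k h

theorem ve_mul_self (i : Fin 4) : ve k i * ve k i = ve k i := by
  have h := mk_rel k (PreRel.idem i)
  rw [map_mul] at h
  exact h

theorem ve_mul_ne (i j : Fin 4) (hij : i ≠ j) : ve k i * ve k j = 0 := by
  have h := mk_rel k (PreRel.orth i j hij)
  rw [map_mul, map_zero] at h
  exact h

theorem sum_ve : ∑ i, ve k i = 1 := by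
  have h := mk_rel k PreRel.one
  rw [map_sum, map_one] at h
  exact h

theorem ve_aa_ve (i : Fin 3) : ve k 0 * aa k i * ve k i.succ = aa k i := by
  have h := mk_rel k (PreRel.arr i)
  rw [map_mul, map_mul] at h
  exact h

theorem ve_bb_ve (i : Fin 3) : ve k i.succ * bb k i * ve k 0 = bb k i := by
  have h := mk_rel k (PreRel.star i)
  rw [map_mul, map_mul] at h
  exact h

theorem preproj : ∑ i, (aa k i * bb k i - bb k i * aa k i) = 0 := by
  have h := mk_rel k PreRel.preproj
  rw [map_sum, map_zero] at h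
  simp only [map_sub, map_mul] at h
  exact h

theorem ve_aa (i : Fin 3) : ve k 0 * aa k i = aa k i := by
  rw [← ve_aa_ve, ← mul_assoc, ← mul_assoc, ve_mul_self]

theorem aa_ve (i : Fin 3) : aa k i * ve k i.succ = aa k i := by
  conv_lhs => rw [← ve_aa_ve]
  rw [mul_assoc, ve_mul_self, ve_aa_ve]

theorem ve_bb (i : Fin 3) : ve k i.succ * bb k i = bb k i := by
  rw [← ve_bb_ve, ← mul_assoc, ← mul_assoc, ve_mul_self]

theorem bb_ve (i : Fin 3) : bb k i * ve k 0 = bb k i := by
  conv_lhs => rw [← ve_bb_ve]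
  rw [mul_assoc, ve_mul_self, ve_bb_ve]

theorem ve_aa_ne (i : Fin 3) (j : Fin 4) (hj : j ≠ 0) : ve k j * aa k i = 0 := by
  rw [← ve_aa, ← mul_assoc, ve_mul_ne k j 0 hj, zero_mul]

theorem ve_bb_ne (i : Fin 3) (j : Fin 4) (hj : j ≠ i.succ) : ve k j * bb k i = 0 := by
  rw [← ve_bb, ← mul_assoc, ve_mul_ne k j _ hj, zero_mul]

theorem aa_mul_ne (i : Fin 3) (j : Fin 4) (hj : i.succ ≠ j) : aa k i * ve k j = 0 := by
  rw [← aa_ve, mul_assoc, ve_mul_ne k _ j hj, mul_zero]

theorem bb_mul_ne (i : Fin 3) (j : Fin 4) (hj : 0 ≠ j) : bb k i * ve k j = 0 := by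
  rw [← bb_ve, mul_assoc, ve_mul_ne k _ j hj, mul_zero]

theorem mul_sum3 (x : Pi4 k) (f : Fin 3 → Pi4 k) : x * ∑ i, f i = ∑ i, x * f i := by
  rw [Fin.sum_univ_three, Fin.sum_univ_three, mul_add, mul_add]

theorem sum_ab : aa k 0 * bb k 0 + aa k 1 * bb k 1 + aa k 2 * bb k 2 = 0 := by
  have h := congrArg (fun x => ve k 0 * x) (preproj k)
  simp only [mul_zero] at h
  rw [mul_sum3, Fin.sum_univ_three] at h
  simp only [mul_sub, ← mul_assoc] at h
  rw [ve_aa, ve_aa, ve_aa, ve_bb_ne k 0 0 (by decide), ve_bb_ne k 1 0 (by decide),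
    ve_bb_ne k 2 0 (by decide)] at h
  simpa using h

theorem ba (i : Fin 3) : bb k i * aa k i = 0 := by
  have h := congrArg (fun x => ve k i.succ * x) (preproj k)
  simp only [mul_zero] at h
  rw [mul_sum3, Finset.sum_eq_single i] at h
  · rw [mul_sub, ← mul_assoc, ← mul_assoc, ve_aa_ne k i _ (Fin.succ_ne_zero i), ve_bb, zero_mul,
      zero_sub, neg_eq_zero] at h
    exact h
  · intro j _ hj
    rw [mul_sub, ← mul_assoc, ← mul_assoc, ve_aa_ne k j _ (Fin.succ_ne_zero i),
      ve_bb_ne k j _ (fun h => hj (Fin.succ_injective _ h).symm)]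
    simp
  · intro h
    exact absurd (Finset.mem_univ i) h

/-! ### Induction -/

theorem left_induction (S : Submodule k (Pi4 k)) (h1 : (1 : Pi4 k) ∈ S)
    (h : ∀ (g : Gen (Fin 4) (Fin 3)), ∀ x ∈ S, gen k g * x ∈ S) (x : Pi4 k) : x ∈ S := by
  obtain ⟨y, rfl⟩ : ∃ y, mkPi k y = x := RingQuot.mkAlgHom_surjective k _ x
  have key : ∀ z ∈ S, mkPi k y * z ∈ S := by
    induction y using FreeAlgebra.induction with
    | grade0 r =>
      intro z hz
      rw [AlgHom.commutes, ← Algebra.smul_def]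
      exact S.smul_mem r hz
    | grade1 g =>
      intro z hz
      exact h g z hz
    | mul a b ha hb =>
      intro z hz
      rw [map_mul, mul_assoc]
      exact ha _ (hb _ hz)
    | add a b ha hb =>
      intro z hz
      rw [map_add, add_mul]
      exact S.add_mem (ha _ hz) (hb _ hz)
  have := key 1 h1
  rwa [mul_one] at this

/-! ### Matrix representations (acting on row vectors from the right) -/

section Representation

/-- A family of integral matrices satisfying the relations, with triangularity data. -/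
structure RepData (n : ℕ) where
  /-- the matrices -/
  G : Gen (Fin 4) (Fin 3) → Matrix (Fin n) (Fin n) ℤ
  /-- the vertices of the basis vectors -/
  vt : Fin n → Fin 4
  /-- an order on the basis vectors -/
  L : Fin n → Fin n → Bool
  refl' : ∀ i, L i i = true
  trans' : ∀ i j m, L i j = true → L j m = true → L i m = true
  anti' : ∀ i j, L i j = true → L j i = true → i = j
  tri : ∀ g, ∀ i j, L i j = false → G g i j = 0
  diag : ∀ u i j, G (Gen.vert u) i j = if i = j ∧ vt i = u then 1 else 0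
  arr : ∀ i, G (Gen.vert 0) * G (Gen.arr i) * G (Gen.vert i.succ) = G (Gen.arr i)
  star : ∀ i, G (Gen.vert i.succ) * G (Gen.star i) * G (Gen.vert 0) = G (Gen.star i)
  pre : ∑ i, (G (Gen.arr i) * G (Gen.star i) - G (Gen.star i) * G (Gen.arr i)) = 0

variable {n : ℕ} (D : RepData n)

theorem RepData.vert_eq (u : Fin 4) :
    D.G (Gen.vert u) = Matrix.diagonal (fun i => if D.vt i = u then 1 else 0) := by
  ext i j
  rw [D.diag, Matrix.diagonal_apply]
  by_cases h : i = j
  · simp [h]
  · simp [h]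

/-- The representation of the algebra. -/
noncomputable def Phi : Pi4 k →ₐ[k] Matrix (Fin n) (Fin n) k :=
  RingQuot.liftAlgHom k ⟨FreeAlgebra.lift k (fun g => (Int.castRingHom k).mapMatrix (D.G g)), by
    intro x y h
    cases h with
    | idem v =>
      simp only [map_mul, FreeAlgebra.lift_ι_apply]
      rw [← map_mul, D.vert_eq, Matrix.diagonal_mul_diagonal]
      congr 2
      ext i
      split <;> simp
    | orth v w h =>
      simp only [map_mul, FreeAlgebra.lift_ι_apply, map_zero]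
      rw [← map_mul, D.vert_eq, D.vert_eq, Matrix.diagonal_mul_diagonal]
      have : (fun i => (if D.vt i = v then (1 : ℤ) else 0) * if D.vt i = w then 1 else 0) = 0 := by
        ext i
        by_cases h1 : D.vt i = v
        · rw [if_pos h1, if_neg (by rw [h1]; exact h)]
          simp
        · rw [if_neg h1]
          simp
      rw [this]
      simp
    | one =>
      simp only [map_sum, FreeAlgebra.lift_ι_apply, map_one]
      rw [← map_sum, ← map_one ((Int.castRingHom k).mapMatrix)]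
      congr 1
      ext i j
      rw [Matrix.sum_apply]
      simp only [D.diag]
      by_cases h : i = j
      · subst h
        simp
      · simp [h]
    | arr a =>
      simp only [map_mul, FreeAlgebra.lift_ι_apply]
      rw [← map_mul, ← map_mul, D.arr]
    | star a =>
      simp only [map_mul, FreeAlgebra.lift_ι_apply]
      rw [← map_mul, ← map_mul, D.star]
    | preproj =>
      simp only [map_sum, map_sub, map_mul, FreeAlgebra.lift_ι_apply, map_zero]
      have h := congrArg (Int.castRingHom k).mapMatrix D.pre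
      simpa only [map_sum, map_sub, map_mul, map_zero] using h⟩

theorem Phi_gen (g : Gen (Fin 4) (Fin 3)) :
    Phi k D (gen k g) = (Int.castRingHom k).mapMatrix (D.G g) := by
  show RingQuot.liftAlgHom k _ (RingQuot.mkAlgHom k _ (FreeAlgebra.ι k g)) = _
  rw [RingQuot.liftAlgHom_mkAlgHom_apply, FreeAlgebra.lift_ι_apply]

theorem Phi_gen_apply (g : Gen (Fin 4) (Fin 3)) (i j : Fin n) :
    Phi k D (gen k g) i j = ((D.G g i j : ℤ) : k) := by
  rw [Phi_gen]
  rfl

theorem Phi_tri (p : Pi4 k) (i j : Fin n) (h : D.L i j = false) : Phi k D p i j = 0 := by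
  let S : Submodule k (Pi4 k) :=
    { carrier := {p | ∀ i j, D.L i j = false → Phi k D p i j = 0}
      add_mem' := fun {a b} ha hb i j h => by
        rw [map_add, Matrix.add_apply, ha i j h, hb i j h, add_zero]
      zero_mem' := fun i j _ => by
        rw [map_zero]
        rfl
      smul_mem' := fun c a ha i j h => by
        rw [map_smul, Matrix.smul_apply, ha i j h, smul_zero] }
  have hS : ∀ p, p ∈ S := by
    refine left_induction k S ?_ ?_
    · intro i j h
      rw [map_one, Matrix.one_apply, if_neg]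
      rintro rfl
      rw [D.refl'] at h
      exact Bool.noConfusion h
    · intro g x hx i j h
      rw [map_mul, Matrix.mul_apply]
      refine Finset.sum_eq_zero fun m _ => ?_
      rcases hb : D.L i m with _ | _
      · rw [Phi_gen_apply, D.tri g i m hb, Int.cast_zero, zero_mul]
      · rcases hb' : D.L m j with _ | _
        · rw [hx m j hb', mul_zero]
        · rw [D.trans' i m j hb hb'] at h
          exact Bool.noConfusion h
  exact hS p i j h

theorem Phi_idl (u : Fin 4) (p : Pi4 k) (hp : p ∈ idl k u) (i : Fin n) (hi : D.vt i = u) :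
    Phi k D p i i = 0 := by
  induction hp using Submodule.span_induction with
  | mem x hx =>
    obtain ⟨a, b, rfl⟩ := hx
    rw [map_mul, map_mul, Matrix.mul_apply]
    refine Finset.sum_eq_zero fun m _ => ?_
    rcases hb : D.L m i with _ | _
    · rw [Phi_tri k D b m i hb, mul_zero]
    · rw [Matrix.mul_apply, Finset.sum_eq_zero, zero_mul]
      intro l _
      have h1 : Phi k D (1 - ve k u) l m = if l = m ∧ D.vt l ≠ u then 1 else 0 := by
        rw [map_sub, map_one, Matrix.sub_apply, Matrix.one_apply, ve, Phi_gen_apply, D.diag]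
        by_cases h1 : l = m
        · by_cases h2 : D.vt l = u
          · subst h1
            simp [h2]
          · subst h1
            simp [h2]
        · simp [h1]
      rw [h1]
      by_cases h2 : l = m ∧ D.vt l ≠ u
      · rcases hb' : D.L i l with _ | _
        · rw [Phi_tri k D a i l hb', zero_mul]
        · exfalso
          have h3 : i = l := D.anti' i l hb' (by rw [h2.1]; exact hb)
          exact h2.2 (by rw [← h3]; exact hi)
      · rw [if_neg h2, mul_zero]
  | zero => rw [map_zero]; rfl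
  | add x y _ _ hx hy => rw [map_add, Matrix.add_apply, hx, hy, add_zero]
  | smul c x _ hx => rw [map_smul, Matrix.smul_apply, hx, smul_zero]

/-- The entries of the matrices of the elements of `I(l)` in the positions `S` are zero. -/
def Van (l : List (Fin 4)) (S : Fin n → Fin n → Bool) : Prop :=
  ∀ p ∈ wIdl k l, ∀ i j, S i j = true → Phi k D p i j = 0

theorem van_nil : Van k D [] (fun i j => !D.L i j) := by
  intro p _ i j h
  exact Phi_tri k D p i j (by simpa using h)

theorem van_cons (u : Fin 4) (l : List (Fin 4)) (S S' : Fin n → Fin n → Bool) (hS : Van k D l S)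
    (h : ∀ i j, S' i j = true → ∀ m, (D.L i m = false ∨ (i = m ∧ D.vt i = u)) ∨ S m j = true) :
    Van k D (u :: l) S' := by
  intro p hp i j hij
  refine Submodule.mul_induction_on hp (fun y hy z hz => ?_) (fun y z hy hz => ?_)
  · rw [map_mul, Matrix.mul_apply]
    refine Finset.sum_eq_zero fun m _ => ?_
    rcases h i j hij m with (h1 | ⟨rfl, h1⟩) | h1
    · rw [Phi_tri k D y i m h1, zero_mul]
    · rw [Phi_idl k D u y hy i h1, zero_mul]
    · rw [hS z hz m j h1, mul_zero]
  · rw [map_add, Matrix.add_apply, hy, hz, add_zero]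

end Representation

/-- The basis vertices for `B₉`. -/
def vt9 : Fin 6 → Fin 4 := ![1, 0, 2, 3, 0, 1]

/-- The matrices for `B₉`. -/
def G9 : Gen (Fin 4) (Fin 3) → Matrix (Fin 6) (Fin 6) ℤ
  | Gen.vert u => fun i j => if i = j ∧ vt9 i = u then 1 else 0
  | Gen.arr a => fun i j => if (a, i, j) = (0, 4, 5) ∨ (a, i, j) = (1, 1, 2) ∨ (a, i, j) = (2, 1, 3)
      then 1 else 0
  | Gen.star a => fun i j => if (a, i, j) = (0, 0, 1) ∨ (a, i, j) = (1, 2, 4) then 1 else
      if (a, i, j) = (2, 3, 4) then -1 else 0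

/-- The representation for `B₉`. -/
def D9 : RepData 6 where
  G := G9
  vt := vt9
  L := fun i j => decide (i ≤ j)
  refl' := by decide
  trans' := by decide
  anti' := by decide
  tri := by
    rintro (u | a | a)
    · revert u
      decide
    · revert a
      decide
    · revert a
      decide
  diag := fun u i j => rfl
  arr := by decide
  star := by decide
  pre := by decide

/-- The basis vertices for `B₅`. -/
def vt5 : Fin 6 → Fin 4 := ![0, 1, 2, 3, 0, 0]

/-- The matrices for `B₅`. -/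
def G5 : Gen (Fin 4) (Fin 3) → Matrix (Fin 6) (Fin 6) ℤ
  | Gen.vert u => fun i j => if i = j ∧ vt5 i = u then 1 else 0
  | Gen.arr a => fun i j => if (a, i, j) = (0, 0, 1) ∨ (a, i, j) = (1, 0, 2) ∨ (a, i, j) = (2, 0, 3)
      then 1 else 0
  | Gen.star a => fun i j => if (a, i, j) = (0, 1, 4) ∨ (a, i, j) = (1, 2, 5) then 1 else
      if (a, i, j) = (2, 3, 4) ∨ (a, i, j) = (2, 3, 5) then -1 else 0

/-- The representation for `B₅`. -/
def D5 : RepData 6 where
  G := G5
  vt := vt5
  L := fun i j => decide (i = j ∨ i = 0 ∨ (i ≤ 3 ∧ 4 ≤ j))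
  refl' := by decide
  trans' := by decide
  anti' := by decide
  tri := by
    rintro (u | a | a)
    · revert u
      decide
    · revert a
      decide
    · revert a
      decide
  diag := fun u i j => rfl
  arr := by decide
  star := by decide
  pre := by decide

/-- The matrices for `B₁`. -/
def G1 : Gen (Fin 4) (Fin 3) → Matrix (Fin 1) (Fin 1) ℤ
  | Gen.vert u => fun i j => if i = j ∧ 0 = u then 1 else 0
  | Gen.arr _ => 0
  | Gen.star _ => 0

/-- The representation for `B₁`. -/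
def D1 : RepData 1 where
  G := G1
  vt := fun _ => 0
  L := fun i j => true
  refl' := by decide
  trans' := by decide
  anti' := by decide
  tri := by
    rintro (u | a | a) i j h
    · exact absurd h (by decide)
    · rfl
    · rfl
  diag := fun u i j => rfl
  arr := by decide
  star := by decide
  pre := by decide

/-! ### Dimension vectors -/

section Dims

variable {n : ℕ} (D : RepData n) (i0 : Fin n) (l : List (Fin 4)) (u : Fin 4)

/-- The quotient `I(l) / I(u :: l)`. -/
abbrev BB : Type u := QQ k l (u :: l)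

/-- The class of an element. -/
noncomputable def QQmk (l l' : List (Fin 4)) (p : rIdl k l) : QQ k l l' := Submodule.Quotient.mk p

theorem QQmk_surj (l l' : List (Fin 4)) (m : QQ k l l') : ∃ p, QQmk k l l' p = m :=
  Submodule.Quotient.mk_surjective _ m

/-- The row map. -/
noncomputable def psi (h1 : ∀ p ∈ wIdl k (u :: l), ∀ j, Phi k D p i0 j = 0) :
    BB k l u →ₗ[k] (Fin n → k) where
  toFun := QuotientAddGroup.lift _
    ({ toFun := fun p => Phi k D (p : Pi4 k) i0
       map_zero' := by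
         show Phi k D (0 : Pi4 k) i0 = 0
         rw [map_zero]
         rfl
       map_add' := fun p q => by
         show Phi k D ((p : Pi4 k) + (q : Pi4 k)) i0 = _
         rw [map_add]
         rfl } : rIdl k l →+ (Fin n → k)) (fun p hp => by
          refine funext fun j => ?_
          exact h1 (p : Pi4 k) hp j)
  map_add' := map_add _
  map_smul' c m := by
    obtain ⟨p, rfl⟩ := QQmk_surj k _ _ m
    show Phi k D (c • (p : Pi4 k)) i0 = c • Phi k D (p : Pi4 k) i0
    rw [map_smul]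
    rfl

theorem psi_mk (h1 : ∀ p ∈ wIdl k (u :: l), ∀ j, Phi k D p i0 j = 0) (p : rIdl k l) :
    psi k D i0 l u h1 (QQmk k l (u :: l) p) = Phi k D (p : Pi4 k) i0 := rfl

theorem psi_smul (h1 : ∀ p ∈ wIdl k (u :: l), ∀ j, Phi k D p i0 j = 0) (a : Pi4 k)
    (m : BB k l u) (j : Fin n) : psi k D i0 l u h1 (op a • m) j =
      ∑ i, psi k D i0 l u h1 m i * Phi k D a i j := by
  obtain ⟨p, rfl⟩ := QQmk_surj k _ _ m
  show Phi k D ((p : Pi4 k) * a) i0 j = _
  rw [map_mul, Matrix.mul_apply]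
  rfl

theorem psi_ve (h1 : ∀ p ∈ wIdl k (u :: l), ∀ j, Phi k D p i0 j = 0) (v : Fin 4)
    (m : BB k l u) (j : Fin n) : psi k D i0 l u h1 (op (ve k v) • m) j =
      if D.vt j = v then psi k D i0 l u h1 m j else 0 := by
  rw [psi_smul, Finset.sum_eq_single j]
  · rw [ve, Phi_gen_apply, D.diag]
    by_cases h : D.vt j = v <;> simp [h]
  · intro b _ hb
    rw [ve, Phi_gen_apply, D.diag]
    simp [hb]
  · intro h
    exact absurd (Finset.mem_univ j) h

theorem psi_inj (h1 : ∀ p ∈ wIdl k (u :: l), ∀ j, Phi k D p i0 j = 0)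
    (h2 : ∀ p ∈ wIdl k l, (∀ j, Phi k D p i0 j = 0) → p ∈ wIdl k (u :: l)) :
    Function.Injective (psi k D i0 l u h1) := by
  rw [injective_iff_map_eq_zero]
  intro m hm
  obtain ⟨p, rfl⟩ := QQmk_surj k _ _ m
  exact (Submodule.Quotient.mk_eq_zero _).2 (h2 p p.2 (fun j => congrFun hm j))

theorem dimv_eq (T : Finset (Fin n))
    (h1 : ∀ p ∈ wIdl k (u :: l), ∀ j, Phi k D p i0 j = 0)
    (h2 : ∀ p ∈ wIdl k l, (∀ j, Phi k D p i0 j = 0) → p ∈ wIdl k (u :: l))
    (h3 : ∀ p ∈ wIdl k l, ∀ j ∉ T, Phi k D p i0 j = 0)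
    (h4 : ∀ j ∈ T, ∃ p ∈ wIdl k l, ∀ j', Phi k D p i0 j' = if j' = j then 1 else 0)
    (v : Fin 4) : dimv k (BB k l u) v = Fintype.card {j : Fin n // j ∈ T ∧ D.vt j = v} := by
  classical
  let ψ := psi k D i0 l u h1
  have hψ : Function.Injective ψ := psi_inj k D i0 l u h1 h2
  let R := LinearMap.range (Algebra.lsmul k k (BB k l u) (op (ve k v)))
  let f : R →ₗ[k] ({j : Fin n // j ∈ T ∧ D.vt j = v} → k) :=
    (LinearMap.funLeft k k (fun j : {j : Fin n // j ∈ T ∧ D.vt j = v} => (j : Fin n))).comp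
      (ψ.comp R.subtype)
  have hf : Function.Bijective f := by
    constructor
    · rw [injective_iff_map_eq_zero]
      rintro ⟨m, m', hm'⟩ hm
      have hm2 : op (ve k v) • m' = m := hm'
      apply Subtype.ext
      apply hψ
      show ψ m = ψ 0
      rw [map_zero]
      refine funext fun j => ?_
      rw [← hm2]
      show ψ (op (ve k v) • m') j = 0
      rw [psi_ve]
      by_cases hj : D.vt j = v
      · rw [if_pos hj]
        by_cases hT : j ∈ T
        · have h5 := congrFun hm ⟨j, hT, hj⟩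
          have h6 : ψ m j = 0 := h5
          rw [← hm2, psi_ve, if_pos hj] at h6
          exact h6
        · obtain ⟨p, rfl⟩ := Submodule.Quotient.mk_surjective _ m'
          exact h3 p p.2 j hT
      · rw [if_neg hj]
    · rw [← LinearMap.range_eq_top, eq_top_iff]
      intro g _
      have hg : g = ∑ j, g j • (Pi.single j 1 : {j : Fin n // j ∈ T ∧ D.vt j = v} → k) := by
        refine funext fun j => ?_
        rw [Finset.sum_apply, Finset.sum_eq_single j]
        · simp
        · intro b _ hb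
          rw [Pi.smul_apply, Pi.single_eq_of_ne (Ne.symm hb), smul_zero]
        · intro h
          exact absurd (Finset.mem_univ j) h
      rw [hg]
      refine Submodule.sum_mem _ fun j _ => Submodule.smul_mem _ _ ?_
      obtain ⟨p, hp, hp'⟩ := h4 j j.2.1
      refine ⟨⟨op (ve k v) • QQmk k l (u :: l) ⟨p, hp⟩, ⟨_, rfl⟩⟩, ?_⟩
      refine funext fun j' => ?_
      show ψ (op (ve k v) • QQmk k l (u :: l) ⟨p, hp⟩) (j' : Fin n) = _
      rw [psi_ve, if_pos j'.2.2]
      show Phi k D p i0 j' = _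
      rw [hp', Pi.single_apply]
      by_cases h : j' = j
      · rw [if_pos h, if_pos (congrArg Subtype.val h)]
      · rw [if_neg h, if_neg (fun h' => h (Subtype.ext h'))]
  have e := (LinearEquiv.ofBijective f hf).finrank_eq
  rw [dimv, e, Module.finrank_fintype_fun_eq_card]

end Dims

/-! ### Decompositions -/

theorem decomp0 (r : Pi4 k) : ∃ (c : k) (f : Fin 3 → Pi4 k),
    ve k 0 * r = c • ve k 0 + ∑ a, aa k a * f a := by
  let S : Submodule k (Pi4 k) :=
    { carrier := {r | ∃ (c : k) (f : Fin 3 → Pi4 k), ve k 0 * r = c • ve k 0 + ∑ a, aa k a * f a}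
      add_mem' := by
        rintro x y ⟨c, f, h⟩ ⟨c', f', h'⟩
        refine ⟨c + c', f + f', ?_⟩
        simp only [mul_add, h, h', add_smul, Pi.add_apply, Finset.sum_add_distrib]
        abel
      zero_mem' := ⟨0, 0, by simp⟩
      smul_mem' := by
        rintro d x ⟨c, f, h⟩
        refine ⟨d * c, d • f, ?_⟩
        rw [mul_smul_comm, h, smul_add, smul_smul, Finset.smul_sum]
        simp only [Pi.smul_apply, mul_smul_comm] }
  refine left_induction k S ⟨1, 0, by simp⟩ ?_ r
  rintro (u | a | a) x ⟨c, f, h⟩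
  · by_cases hu : u = 0
    · subst hu
      refine ⟨c, f, ?_⟩
      show ve k 0 * (ve k 0 * x) = _
      rw [← mul_assoc, ve_mul_self, h]
    · refine ⟨0, 0, ?_⟩
      show ve k 0 * (ve k u * x) = _
      rw [← mul_assoc, ve_mul_ne k 0 u (Ne.symm hu)]
      simp
  · refine ⟨0, Pi.single a x, ?_⟩
    show ve k 0 * (aa k a * x) = _
    rw [← mul_assoc, ve_aa, zero_smul, zero_add, Finset.sum_eq_single a, Pi.single_eq_same]
    · intro b _ hb
      rw [Pi.single_eq_of_ne hb, mul_zero]
    · intro h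
      exact absurd (Finset.mem_univ a) h
  · refine ⟨0, 0, ?_⟩
    show ve k 0 * (bb k a * x) = _
    rw [← mul_assoc, ve_bb_ne k a 0 (Fin.succ_ne_zero a).symm]
    simp

theorem decompS (i : Fin 3) (r : Pi4 k) : ∃ (c : k) (f : Pi4 k),
    ve k i.succ * r = c • ve k i.succ + bb k i * f := by
  let S : Submodule k (Pi4 k) :=
    { carrier := {r | ∃ (c : k) (f : Pi4 k), ve k i.succ * r = c • ve k i.succ + bb k i * f}
      add_mem' := by
        rintro x y ⟨c, f, h⟩ ⟨c', f', h'⟩
        refine ⟨c + c', f + f', ?_⟩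
        simp only [mul_add, h, h', add_smul]
        abel
      zero_mem' := ⟨0, 0, by simp⟩
      smul_mem' := by
        rintro d x ⟨c, f, h⟩
        refine ⟨d * c, d • f, ?_⟩
        rw [mul_smul_comm, h, smul_add, smul_smul, mul_smul_comm] }
  refine left_induction k S ⟨1, 0, by simp⟩ ?_ r
  rintro (u | a | a) x ⟨c, f, h⟩
  · by_cases hu : u = i.succ
    · subst hu
      refine ⟨c, f, ?_⟩
      show ve k i.succ * (ve k i.succ * x) = _
      rw [← mul_assoc, ve_mul_self, h]
    · refine ⟨0, 0, ?_⟩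
      show ve k i.succ * (ve k u * x) = _
      rw [← mul_assoc, ve_mul_ne k _ u (Ne.symm hu)]
      simp
  · refine ⟨0, 0, ?_⟩
    show ve k i.succ * (aa k a * x) = _
    rw [← mul_assoc, ve_aa_ne k a _ (Fin.succ_ne_zero i)]
    simp
  · by_cases ha : a = i
    · subst ha
      refine ⟨0, x, ?_⟩
      show ve k a.succ * (bb k a * x) = _
      rw [← mul_assoc, ve_bb]
      simp
    · refine ⟨0, 0, ?_⟩
      show ve k i.succ * (bb k a * x) = _
      rw [← mul_assoc, ve_bb_ne k a _ (fun h => ha (Fin.succ_injective _ h).symm)]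
      simp

theorem aa_mul (a : Fin 3) (r : Pi4 k) : ∃ (c : k) (f : Pi4 k),
    aa k a * r = c • aa k a + aa k a * bb k a * f := by
  obtain ⟨c, f, h⟩ := decompS k a r
  refine ⟨c, f, ?_⟩
  have h2 : aa k a * r = aa k a * (ve k a.succ * r) := by rw [← mul_assoc, aa_ve]
  rw [h2, h, mul_add, mul_smul_comm, aa_ve, mul_assoc]

theorem mul_bb_mul (a : Fin 3) (x r : Pi4 k) : ∃ (c : k) (f : Fin 3 → Pi4 k),
    x * bb k a * r = c • (x * bb k a) + ∑ b, x * bb k a * aa k b * f b := by
  obtain ⟨c, f, h⟩ := decomp0 k r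
  refine ⟨c, f, ?_⟩
  have h2 : x * bb k a * r = x * bb k a * (ve k 0 * r) := by
    rw [← mul_assoc (x * bb k a), mul_assoc x (bb k a) (ve k 0), bb_ve]
  rw [h2, h, mul_add, mul_smul_comm, mul_assoc x, bb_ve, mul_sum3]
  simp only [mul_assoc]

theorem mul_aa_mul (a : Fin 3) (x r : Pi4 k) : ∃ (c : k) (f : Pi4 k),
    x * aa k a * r = c • (x * aa k a) + x * aa k a * bb k a * f := by
  obtain ⟨c, f, h⟩ := aa_mul k a r
  refine ⟨c, f, ?_⟩
  rw [mul_assoc x, h, mul_add, mul_smul_comm]
  simp only [mul_assoc]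

/-! ### Membership -/

theorem idl_mul_left (i : Fin 4) (a x : Pi4 k) (hx : x ∈ idl k i) : a * x ∈ idl k i := by
  induction hx using Submodule.span_induction with
  | mem x hx =>
    obtain ⟨b, c, rfl⟩ := hx
    exact Submodule.subset_span ⟨a * b, c, by simp only [mul_assoc]⟩
  | zero => rw [mul_zero]; exact Submodule.zero_mem _
  | add x y _ _ hx hy => rw [mul_add]; exact Submodule.add_mem _ hx hy
  | smul c x _ hx => rw [mul_smul_comm]; exact Submodule.smul_mem _ c hx

theorem idl_mul_right (i : Fin 4) (a x : Pi4 k) (hx : x ∈ idl k i) : x * a ∈ idl k i := by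
  induction hx using Submodule.span_induction with
  | mem x hx =>
    obtain ⟨b, c, rfl⟩ := hx
    exact Submodule.subset_span ⟨b, c * a, by simp only [mul_assoc]⟩
  | zero => rw [zero_mul]; exact Submodule.zero_mem _
  | add x y _ _ hx hy => rw [add_mul]; exact Submodule.add_mem _ hx hy
  | smul c x _ hx => rw [smul_mul_assoc]; exact Submodule.smul_mem _ c hx

theorem one_sub_mem (i : Fin 4) : 1 - ve k i ∈ idl k i :=
  Submodule.subset_span ⟨1, 1, by simp⟩

theorem ve_mem (i j : Fin 4) (h : i ≠ j) : ve k i ∈ idl k j :=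
  Submodule.subset_span ⟨1, ve k i, by rw [one_mul, sub_mul, one_mul, ve_mul_ne k j i h.symm,
    sub_zero]⟩

theorem aa_mem (a : Fin 3) (j : Fin 4) : aa k a ∈ idl k j := by
  by_cases h : j = 0
  · subst h
    rw [← aa_ve]
    exact idl_mul_left k _ _ _ (ve_mem k _ _ (Fin.succ_ne_zero a))
  · rw [← ve_aa]
    exact idl_mul_right k _ _ _ (ve_mem k _ _ (Ne.symm h))

theorem bb_mem (a : Fin 3) (j : Fin 4) : bb k a ∈ idl k j := by
  by_cases h : j = 0
  · subst h
    rw [← ve_bb]
    exact idl_mul_right k _ _ _ (ve_mem k _ _ (Fin.succ_ne_zero a))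
  · rw [← bb_ve]
    exact idl_mul_left k _ _ _ (ve_mem k _ _ (Ne.symm h))

theorem cons_mem (u : Fin 4) (l : List (Fin 4)) (x y : Pi4 k) (hx : x ∈ idl k u)
    (hy : y ∈ wIdl k l) : x * y ∈ wIdl k (u :: l) := Submodule.mul_mem_mul hx hy

theorem cons_ve_mem (u : Fin 4) (l : List (Fin 4)) (i : Fin 4) (y : Pi4 k) (h : i ≠ u)
    (hy : y ∈ wIdl k l) (hy' : ve k i * y = y) : y ∈ wIdl k (u :: l) := by
  rw [← hy']
  exact cons_mem k u l _ _ (ve_mem k i u h) hy

/-- Products of generators. -/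
theorem Phi_mul_gen {n : ℕ} (D : RepData n) (x : Pi4 k) (X : Matrix (Fin n) (Fin n) ℤ)
    (hx : Phi k D x = (Int.castRingHom k).mapMatrix X) (g : Gen (Fin 4) (Fin 3)) :
    Phi k D (x * gen k g) = (Int.castRingHom k).mapMatrix (X * D.G g) := by
  rw [map_mul, map_mul, hx, Phi_gen]

theorem cast_row {n : ℕ} (X : Matrix (Fin n) (Fin n) ℤ) (i j : Fin n)
    (h : ∀ j', X i j' = if j' = j then 1 else 0) (j' : Fin n) :
    ((Int.castRingHom k).mapMatrix X) i j' = if j' = j then 1 else 0 := by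
  show ((X i j' : ℤ) : k) = _
  rw [h]
  split <;> simp

/-! ### The module `B₁` -/

theorem h1_1 : ∀ p ∈ wIdl k [0], ∀ j, Phi k D1 p 0 j = 0 := by
  intro p hp j
  exact van_cons k D1 0 [] _ (fun _ _ => true) (van_nil k D1) (by decide) p hp 0 j rfl

theorem h2_1 : ∀ p ∈ wIdl k [], (∀ j, Phi k D1 p 0 j = 0) → p ∈ wIdl k [0] := by
  intro p _ hp
  obtain ⟨c, f, h⟩ := decomp0 k p
  have h2 : ∑ a, aa k a * f a ∈ wIdl k [0] :=
    Submodule.sum_mem _ fun a _ => cons_mem k 0 [] _ _ (aa_mem k a 0) Submodule.mem_top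
  have h3 : Phi k D1 (ve k 0 * p) 0 0 = 0 := by
    rw [map_mul, Matrix.mul_apply]
    refine Finset.sum_eq_zero fun m _ => ?_
    have : m = 0 := Subsingleton.elim _ _
    rw [this, hp, mul_zero]
  rw [h, map_add, Matrix.add_apply, h1_1 k _ h2 0, add_zero, map_smul, Matrix.smul_apply, ve,
    Phi_gen_apply] at h3
  have h4 : c = 0 := by simpa [D1, G1] using h3
  have h5 : p = ve k 0 * p + (1 - ve k 0) * p := by rw [sub_mul, one_mul]; abel
  rw [h5, h, h4, zero_smul, zero_add]
  exact Submodule.add_mem _ h2 (cons_mem k 0 [] _ _ (one_sub_mem k 0) Submodule.mem_top)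

theorem dim1 (v : Fin 4) : dimv k (BB k [] 0) v =
    Fintype.card {j : Fin 1 // j ∈ (Finset.univ : Finset (Fin 1)) ∧ D1.vt j = v} := by
  refine dimv_eq k D1 0 [] 0 Finset.univ (h1_1 k) (h2_1 k) ?_ ?_ v
  · intro p _ j hj
    exact absurd (Finset.mem_univ j) hj
  · intro j _
    refine ⟨1, Submodule.mem_top, fun j' => ?_⟩
    rw [map_one, Subsingleton.elim j' 0, Subsingleton.elim j 0]
    simp

/-! ### The module `B₅` -/

theorem van5_a : Van k D5 [3, 2, 1, 0] (fun i j => i == 0 && j == 0) := by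
  have h0 := van_cons k D5 0 [] _ (fun i j => (i == 0 && j == 0) || !D5.L i j) (van_nil k D5)
    (by decide)
  have h1 := van_cons k D5 1 _ _ (fun i j => (i == 0 && j == 0) || !D5.L i j) h0 (by decide)
  have h2 := van_cons k D5 2 _ _ (fun i j => (i == 0 && j == 0) || !D5.L i j) h1 (by decide)
  exact van_cons k D5 3 _ _ _ h2 (by decide)

theorem van5_b : Van k D5 [0, 3, 2, 1, 0] (fun i _ => i == 0) := by
  have h0 := van_cons k D5 0 [] _ (fun i _ => decide (4 ≤ i)) (van_nil k D5) (by decide)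
  have h1 := van_cons k D5 1 _ _ (fun i _ => decide (4 ≤ i ∨ i = 1)) h0 (by decide)
  have h2 := van_cons k D5 2 _ _ (fun i _ => decide (4 ≤ i ∨ i = 1 ∨ i = 2)) h1 (by decide)
  have h3 := van_cons k D5 3 _ _ (fun i _ => decide (1 ≤ i)) h2 (by decide)
  exact van_cons k D5 0 _ _ _ h3 (by decide)

theorem h1_5 : ∀ p ∈ wIdl k [0, 3, 2, 1, 0], ∀ j, Phi k D5 p 0 j = 0 := fun p hp j =>
  van5_b k p hp 0 j rfl

theorem mem5 (a : Fin 3) (r : Pi4 k) : aa k a * r ∈ wIdl k [3, 2, 1, 0] := by
  have h0 : aa k a * r ∈ wIdl k [0] := cons_mem k 0 [] _ _ (aa_mem k a 0) Submodule.mem_top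
  have hv : ve k 0 * (aa k a * r) = aa k a * r := by rw [← mul_assoc, ve_aa]
  have h1 := cons_ve_mem k 1 _ 0 _ (by decide) h0 hv
  have h2 := cons_ve_mem k 2 _ 0 _ (by decide) h1 hv
  exact cons_ve_mem k 3 _ 0 _ (by decide) h2 hv

theorem mem5' (a b : Fin 3) (r : Pi4 k) : bb k a * aa k b * r ∈ wIdl k [3, 2, 1, 0] := by
  have h0 : aa k b * r ∈ wIdl k [0] := cons_mem k 0 [] _ _ (aa_mem k b 0) Submodule.mem_top
  have hv : ve k 0 * (aa k b * r) = aa k b * r := by rw [← mul_assoc, ve_aa]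
  have h1 := cons_ve_mem k 1 _ 0 _ (by decide) h0 hv
  have h2 := cons_ve_mem k 2 _ 0 _ (by decide) h1 hv
  rw [mul_assoc]
  exact cons_mem k 3 _ _ _ (bb_mem k a 3) h2

theorem mem5'' (a b : Fin 3) (r : Pi4 k) :
    aa k a * bb k a * aa k b * r ∈ wIdl k [0, 3, 2, 1, 0] := by
  rw [mul_assoc (aa k a), mul_assoc (aa k a)]
  exact cons_mem k 0 _ _ _ (aa_mem k a 0) (mem5' k a b r)

theorem row_ab5 (a : Fin 3) (j : Fin 6) : Phi k D5 (aa k a * bb k a) 0 j =
    (((D5.G (Gen.arr a) * D5.G (Gen.star a)) 0 j : ℤ) : k) := by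
  have h := Phi_mul_gen k D5 (aa k a) (D5.G (Gen.arr a)) (Phi_gen k D5 (Gen.arr a)) (Gen.star a)
  have h2 : aa k a * bb k a = aa k a * gen k (Gen.star a) := rfl
  rw [h2, h]
  rfl

theorem h2_5 : ∀ p ∈ wIdl k [3, 2, 1, 0], (∀ j, Phi k D5 p 0 j = 0) →
    p ∈ wIdl k [0, 3, 2, 1, 0] := by
  intro p hp0 hp
  obtain ⟨c, f, h⟩ := decomp0 k p
  have hf : ∀ a, ∃ (c d : k) (w : Pi4 k), w ∈ wIdl k [0, 3, 2, 1, 0] ∧
      aa k a * f a = c • aa k a + d • (aa k a * bb k a) + w := by
    intro a
    obtain ⟨c, g, hg⟩ := aa_mul k a (f a)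
    obtain ⟨d, g', hg'⟩ := mul_bb_mul k a (aa k a) g
    refine ⟨c, d, ∑ b, aa k a * bb k a * aa k b * g' b, ?_, ?_⟩
    · exact Submodule.sum_mem _ fun b _ => mem5'' k a b (g' b)
    · rw [hg, hg', add_assoc]
  choose cc dd w hw hfw using hf
  have hsum : ∑ a, aa k a * f a = ∑ a, (cc a • aa k a + dd a • (aa k a * bb k a)) + ∑ a, w a := by
    rw [← Finset.sum_add_distrib]
    exact Finset.sum_congr rfl fun a _ => hfw a
  have hw' : ∑ a, w a ∈ wIdl k [0, 3, 2, 1, 0] := Submodule.sum_mem _ fun a _ => hw a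
  rw [hsum] at h
  have hrow : ∀ j, Phi k D5 (ve k 0 * p) 0 j = 0 := by
    intro j
    rw [map_mul, Matrix.mul_apply]
    refine Finset.sum_eq_zero fun m _ => ?_
    rw [ve, Phi_gen_apply, D5.diag]
    by_cases hm : 0 = m
    · rw [← hm, hp, mul_zero]
    · rw [if_neg (fun h => hm h.1)]
      simp
  have hrow' : ∀ j, c * (((D5.G (Gen.vert 0) 0 j : ℤ)) : k) +
      ∑ a, (cc a * ((D5.G (Gen.arr a) 0 j : ℤ) : k) +
        dd a * (((D5.G (Gen.arr a) * D5.G (Gen.star a)) 0 j : ℤ) : k)) = 0 := by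
    intro j
    have h3 := hrow j
    rw [h, map_add, map_add, Matrix.add_apply, Matrix.add_apply, h1_5 k _ hw' j, add_zero, map_smul,
      Matrix.smul_apply, ve, Phi_gen_apply, map_sum, Matrix.sum_apply] at h3
    rw [← h3]
    congr 1
    refine Finset.sum_congr rfl fun a _ => ?_
    rw [map_add, Matrix.add_apply, map_smul, map_smul, Matrix.smul_apply, Matrix.smul_apply,
      row_ab5, aa, Phi_gen_apply]
    rfl
  simp only [Fin.sum_univ_three] at hrow'
  have z1 : ∀ j, ((D5.G (Gen.vert 0)) 0 j : ℤ) = if j = 0 then 1 else 0 := by decide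
  have z2 : ∀ a j, ((D5.G (Gen.arr a)) 0 j : ℤ) = if j = Fin.castLE (by norm_num) a.succ
      then 1 else 0 := by decide
  have z3 : ∀ a j, ((D5.G (Gen.arr a) * D5.G (Gen.star a)) 0 j : ℤ) =
      if j = 4 then (if a = 0 then 1 else if a = 2 then -1 else 0) else
      if j = 5 then (if a = 1 then 1 else if a = 2 then -1 else 0) else 0 := by decide
  simp only [z1, z2, z3] at hrow'
  have e0 := hrow' 0
  have e1 := hrow' 1
  have e2 := hrow' 2
  have e3 := hrow' 3
  have e4 := hrow' 4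
  have e5 := hrow' 5
  simp at e0 e1 e2 e3 e4 e5
  have e6 : dd 0 = dd 2 := by linear_combination e4
  have e7 : dd 1 = dd 2 := by linear_combination e5
  have hz : ∑ a, (cc a • aa k a + dd a • (aa k a * bb k a)) = 0 := by
    rw [Fin.sum_univ_three, e1, e2, e3, e6, e7]
    simp only [zero_smul, zero_add]
    rw [← smul_add, ← smul_add, sum_ab, smul_zero]
  rw [e0, zero_smul, hz, zero_add, zero_add] at h
  have h5 : p = ve k 0 * p + (1 - ve k 0) * p := by rw [sub_mul, one_mul]; abel
  rw [h5, h]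
  exact Submodule.add_mem _ hw' (cons_mem k 0 _ _ _ (one_sub_mem k 0) hp0)

theorem dim5 (v : Fin 4) : dimv k (BB k [3, 2, 1, 0] 0) v =
    Fintype.card {j : Fin 6 // j ∈ ({1, 2, 3, 4, 5} : Finset (Fin 6)) ∧ D5.vt j = v} := by
  refine dimv_eq k D5 0 _ 0 {1, 2, 3, 4, 5} (h1_5 k) (h2_5 k) ?_ ?_ v
  · intro p hp j hj
    have : j = 0 := by
      revert hj
      revert j
      decide
    rw [this]
    exact van5_a k p hp 0 0 rfl
  · intro j hj
    have hj' : (∃ a : Fin 3, j = Fin.castLE (by norm_num) a.succ) ∨ j = 4 ∨ j = 5 := by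
      revert hj
      revert j
      decide
    rcases hj' with ⟨a, rfl⟩ | rfl | rfl
    · refine ⟨aa k a * 1, mem5 k a 1, fun j' => ?_⟩
      rw [mul_one, aa, Phi_gen]
      apply cast_row
      revert a
      decide
    · refine ⟨aa k 0 * bb k 0, mem5 k 0 _, fun j' => ?_⟩
      rw [row_ab5]
      revert j'
      have : ∀ j' : Fin 6, (D5.G (Gen.arr 0) * D5.G (Gen.star 0)) 0 j' = if j' = 4 then 1 else 0 := by
        decide
      intro j'
      rw [this]
      split <;> simp
    · refine ⟨aa k 1 * bb k 1, mem5 k 1 _, fun j' => ?_⟩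
      rw [row_ab5]
      revert j'
      have : ∀ j' : Fin 6, (D5.G (Gen.arr 1) * D5.G (Gen.star 1)) 0 j' = if j' = 5 then 1 else 0 := by
        decide
      intro j'
      rw [this]
      split <;> simp

/-! ### The module `B₉` -/

theorem van9_a : Van k D9 [0, 2, 3, 0, 3, 2, 1, 0] (fun i j => i == 0 && (j == 0 || j == 1)) := by
  have h0 := van_cons k D9 0 [] _ (fun i j => (i == 1 && j == 1) || !D9.L i j) (van_nil k D9)
    (by decide)
  have h1 := van_cons k D9 1 _ _ (fun i j => (i == 0 && j == 0) || (i == 0 && j == 1) ||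
    (i == 1 && j == 1) || !D9.L i j) h0 (by decide)
  have h2 := van_cons k D9 2 _ _ (fun i j => (i == 0 && j == 0) || (i == 0 && j == 1) ||
    (i == 1 && j == 1) || !D9.L i j) h1 (by decide)
  have h3 := van_cons k D9 3 _ _ (fun i j => (i == 0 && j == 0) || (i == 0 && j == 1) ||
    (i == 1 && j == 1) || !D9.L i j) h2 (by decide)
  have h4 := van_cons k D9 0 _ _ (fun i j => (i == 0 && j == 0) || (i == 0 && j == 1) ||
    (i == 1 && j == 1) || !D9.L i j) h3 (by decide)
  have h5 := van_cons k D9 3 _ _ (fun i j => (i == 0 && j == 0) || (i == 0 && j == 1) ||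
    (i == 1 && j == 1) || !D9.L i j) h4 (by decide)
  have h6 := van_cons k D9 2 _ _ (fun i j => (i == 0 && j == 0) || (i == 0 && j == 1) ||
    (i == 1 && j == 1) || !D9.L i j) h5 (by decide)
  exact van_cons k D9 0 _ _ _ h6 (by decide)

theorem van9_b : Van k D9 [1, 0, 2, 3, 0, 3, 2, 1, 0] (fun i _ => i == 0) := by
  have h0 := van_cons k D9 0 [] _ (fun _ _ => false) (van_nil k D9) (by decide)
  have h1 := van_cons k D9 1 _ _ (fun i _ => decide (5 ≤ i)) h0 (by decide)
  have h2 := van_cons k D9 2 _ _ (fun i _ => decide (5 ≤ i)) h1 (by decide)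
  have h3 := van_cons k D9 3 _ _ (fun i _ => decide (5 ≤ i)) h2 (by decide)
  have h4 := van_cons k D9 0 _ _ (fun i _ => decide (4 ≤ i)) h3 (by decide)
  have h5 := van_cons k D9 3 _ _ (fun i _ => decide (3 ≤ i)) h4 (by decide)
  have h6 := van_cons k D9 2 _ _ (fun i _ => decide (2 ≤ i)) h5 (by decide)
  have h7 := van_cons k D9 0 _ _ (fun i _ => decide (1 ≤ i)) h6 (by decide)
  exact van_cons k D9 1 _ _ _ h7 (by decide)

theorem h1_9 : ∀ p ∈ wIdl k [1, 0, 2, 3, 0, 3, 2, 1, 0], ∀ j, Phi k D9 p 0 j = 0 := fun p hp j =>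
  van9_b k p hp 0 j rfl

theorem mem9 (b : Fin 3) (r : Pi4 k) :
    bb k 0 * aa k b * r ∈ wIdl k [0, 2, 3, 0, 3, 2, 1, 0] := by
  have h0 : aa k b * r ∈ wIdl k [0] := cons_mem k 0 [] _ _ (aa_mem k b 0) Submodule.mem_top
  have h1 : bb k 0 * aa k b * r ∈ wIdl k [1, 0] := by
    rw [mul_assoc]
    exact cons_mem k 1 _ _ _ (bb_mem k 0 1) h0
  have hv : ve k 1 * (bb k 0 * aa k b * r) = bb k 0 * aa k b * r := by
    rw [← mul_assoc, ← mul_assoc]
    have : ve k 1 * bb k 0 = bb k 0 := ve_bb k 0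
    rw [this]
  have h2 := cons_ve_mem k 2 _ 1 _ (by decide) h1 hv
  have h3 := cons_ve_mem k 3 _ 1 _ (by decide) h2 hv
  have h4 := cons_ve_mem k 0 _ 1 _ (by decide) h3 hv
  have h5 := cons_ve_mem k 3 _ 1 _ (by decide) h4 hv
  have h6 := cons_ve_mem k 2 _ 1 _ (by decide) h5 hv
  exact cons_ve_mem k 0 _ 1 _ (by decide) h6 hv

theorem Phi9_b (j : Fin 6) : Phi k D9 (bb k 0) 0 j = if j = 1 then 1 else 0 := by
  rw [bb, Phi_gen]
  exact cast_row k _ 0 1 (by decide) j

theorem Phi9_ba (b : Fin 3) : Phi k D9 (bb k 0 * aa k b) =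
    (Int.castRingHom k).mapMatrix (D9.G (Gen.star 0) * D9.G (Gen.arr b)) :=
  Phi_mul_gen k D9 (bb k 0) _ (Phi_gen k D9 (Gen.star 0)) (Gen.arr b)

theorem Phi9_bab : Phi k D9 (bb k 0 * aa k 1 * bb k 1) =
    (Int.castRingHom k).mapMatrix (D9.G (Gen.star 0) * D9.G (Gen.arr 1) * D9.G (Gen.star 1)) :=
  Phi_mul_gen k D9 _ _ (Phi9_ba k 1) (Gen.star 1)

theorem Phi9_baba : Phi k D9 (bb k 0 * aa k 1 * bb k 1 * aa k 0) =
    (Int.castRingHom k).mapMatrix (D9.G (Gen.star 0) * D9.G (Gen.arr 1) * D9.G (Gen.star 1) *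
      D9.G (Gen.arr 0)) :=
  Phi_mul_gen k D9 _ _ (Phi9_bab k) (Gen.arr 0)

theorem row9_2 (j : Fin 6) : Phi k D9 (bb k 0 * aa k 1) 0 j = if j = 2 then 1 else 0 := by
  rw [Phi9_ba]
  exact cast_row k _ 0 2 (by decide) j

theorem row9_3 (j : Fin 6) : Phi k D9 (bb k 0 * aa k 2) 0 j = if j = 3 then 1 else 0 := by
  rw [Phi9_ba]
  exact cast_row k _ 0 3 (by decide) j

theorem row9_4 (j : Fin 6) : Phi k D9 (bb k 0 * aa k 1 * bb k 1) 0 j =
    if j = 4 then 1 else 0 := by
  rw [Phi9_bab]
  exact cast_row k _ 0 4 (by decide) j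

theorem row9_5 (j : Fin 6) : Phi k D9 (bb k 0 * aa k 1 * bb k 1 * aa k 0) 0 j =
    if j = 5 then 1 else 0 := by
  rw [Phi9_baba]
  exact cast_row k _ 0 5 (by decide) j

theorem rel9 : bb k 0 * aa k 2 * bb k 2 = - (bb k 0 * aa k 1 * bb k 1) := by
  have h := congrArg (fun x => bb k 0 * x) (sum_ab k)
  simp only [mul_add, mul_zero, ← mul_assoc] at h
  rw [ba, zero_mul, zero_add] at h
  exact eq_neg_of_add_eq_zero_right h

theorem rel9_1 : bb k 0 * aa k 1 * bb k 1 * aa k 1 = 0 := by
  rw [mul_assoc, ba, mul_zero]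

theorem rel9_2 : bb k 0 * aa k 1 * bb k 1 * aa k 2 = 0 := by
  have h := congrArg (fun x => x * aa k 2) (rel9 k)
  simp only [neg_mul] at h
  rw [mul_assoc, ba, mul_zero] at h
  exact (neg_eq_zero.1 h.symm)

theorem rel9_3 : bb k 0 * aa k 1 * bb k 1 * aa k 0 * bb k 0 = 0 := by
  have h := congrArg (fun x => bb k 0 * aa k 1 * bb k 1 * x) (sum_ab k)
  simp only [mul_add, mul_zero, ← mul_assoc] at h
  rw [rel9_1, rel9_2, zero_mul, zero_mul, add_zero, add_zero] at h
  exact h

theorem h2_9 : ∀ p ∈ wIdl k [0, 2, 3, 0, 3, 2, 1, 0], (∀ j, Phi k D9 p 0 j = 0) →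
    p ∈ wIdl k [1, 0, 2, 3, 0, 3, 2, 1, 0] := by
  intro p hp0 hp
  obtain ⟨c0, f, h⟩ := decompS k 0 p
  obtain ⟨c1, g, hg⟩ := mul_bb_mul k 0 1 f
  obtain ⟨c2, f1, hf1⟩ := mul_aa_mul k 1 (bb k 0) (g 1)
  obtain ⟨c3, f2, hf2⟩ := mul_aa_mul k 2 (bb k 0) (g 2)
  obtain ⟨c4, g', hg'⟩ := mul_bb_mul k 1 (bb k 0 * aa k 1) (f1 - f2)
  obtain ⟨c5, f3, hf3⟩ := mul_aa_mul k 0 (bb k 0 * aa k 1 * bb k 1) (g' 0)
  have key : ve k 1 * p = c0 • ve k 1 + c1 • bb k 0 + c2 • (bb k 0 * aa k 1) +
      c3 • (bb k 0 * aa k 2) + c4 • (bb k 0 * aa k 1 * bb k 1) +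
      c5 • (bb k 0 * aa k 1 * bb k 1 * aa k 0) := by
    have h' : ve k 1 * p = c0 • ve k 1 + bb k 0 * f := h
    rw [h']
    simp only [one_mul] at hg
    rw [hg, Fin.sum_univ_three, ba, zero_mul, zero_add, hf1, hf2, rel9]
    rw [Fin.sum_univ_three, hf3, rel9_1, rel9_2, rel9_3, zero_mul, zero_mul, zero_mul, add_zero,
      add_zero, add_zero] at hg'
    rw [mul_sub] at hg'
    have : bb k 0 * aa k 1 * bb k 1 * f1 + -(bb k 0 * aa k 1 * bb k 1) * f2 =
        c4 • (bb k 0 * aa k 1 * bb k 1) + c5 • (bb k 0 * aa k 1 * bb k 1 * aa k 0) := by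
      rw [← hg', neg_mul, sub_eq_add_neg]
    calc _ = c0 • ve k 1 + c1 • bb k 0 + c2 • (bb k 0 * aa k 1) + c3 • (bb k 0 * aa k 2) +
          (bb k 0 * aa k 1 * bb k 1 * f1 + -(bb k 0 * aa k 1 * bb k 1) * f2) := by abel
      _ = _ := by rw [this]; abel
  have hrow : ∀ j, Phi k D9 (ve k 1 * p) 0 j = 0 := by
    intro j
    rw [map_mul, Matrix.mul_apply]
    refine Finset.sum_eq_zero fun m _ => ?_
    rw [ve, Phi_gen_apply, D9.diag]
    by_cases hm : 0 = m
    · rw [← hm, hp, mul_zero]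
    · rw [if_neg (fun h => hm h.1)]
      simp
  have hv : ∀ j, Phi k D9 (ve k 1) 0 j = if j = 0 then 1 else 0 := by
    intro j
    rw [ve, Phi_gen]
    exact cast_row k _ 0 0 (by decide) j
  have hrow' : ∀ j : Fin 6, c0 * (if j = 0 then 1 else 0) + c1 * (if j = 1 then 1 else 0) +
      c2 * (if j = 2 then 1 else 0) + c3 * (if j = 3 then 1 else 0) +
      c4 * (if j = 4 then 1 else 0) + c5 * (if j = 5 then 1 else 0) = 0 := by
    intro j
    have h3 := hrow j
    rw [key] at h3
    simp only [map_add, map_smul, Matrix.add_apply, Matrix.smul_apply, hv, Phi9_b, row9_2, row9_3,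
      row9_4, row9_5, smul_eq_mul] at h3
    exact h3
  have e0 := hrow' 0
  have e1 := hrow' 1
  have e2 := hrow' 2
  have e3 := hrow' 3
  have e4 := hrow' 4
  have e5 := hrow' 5
  simp at e0 e1 e2 e3 e4 e5
  rw [e0, e1, e2, e3, e4, e5] at key
  simp only [zero_smul, add_zero] at key
  have h5 : p = ve k 1 * p + (1 - ve k 1) * p := by rw [sub_mul, one_mul]; abel
  rw [h5, key, zero_add]
  exact cons_mem k 1 _ _ _ (one_sub_mem k 1) hp0

theorem dim9 (v : Fin 4) : dimv k (BB k [0, 2, 3, 0, 3, 2, 1, 0] 1) v =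
    Fintype.card {j : Fin 6 // j ∈ ({2, 3, 4, 5} : Finset (Fin 6)) ∧ D9.vt j = v} := by
  refine dimv_eq k D9 0 _ 1 {2, 3, 4, 5} (h1_9 k) (h2_9 k) ?_ ?_ v
  · intro p hp j hj
    have : j = 0 ∨ j = 1 := by
      revert hj
      revert j
      decide
    rcases this with rfl | rfl
    · exact van9_a k p hp 0 0 rfl
    · exact van9_a k p hp 0 1 rfl
  · intro j hj
    have hj' : j = 2 ∨ j = 3 ∨ j = 4 ∨ j = 5 := by
      revert hj
      revert j
      decide
    rcases hj' with rfl | rfl | rfl | rfl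
    · exact ⟨bb k 0 * aa k 1, by have := mem9 k 1 1; rwa [mul_one] at this, row9_2 k⟩
    · exact ⟨bb k 0 * aa k 2, by have := mem9 k 2 1; rwa [mul_one] at this, row9_3 k⟩
    · exact ⟨bb k 0 * aa k 1 * bb k 1, mem9 k 1 _, row9_4 k⟩
    · exact ⟨bb k 0 * aa k 1 * bb k 1 * aa k 0, by
        have := mem9 k 1 (bb k 1 * aa k 0)
        rwa [← mul_assoc] at this, row9_5 k⟩

/-! ### No surjection -/

theorem no_surj (g : BB k [3, 2, 1, 0] 0 →ₗ[(Pi4 k)ᵐᵒᵖ] BB k [0, 2, 3, 0, 3, 2, 1, 0] 1)
    (hg : Function.Surjective g) : False := by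
  let X : BB k [0, 2, 3, 0, 3, 2, 1, 0] 1 :=
    QQmk k _ _ ⟨bb k 0 * aa k 1 * bb k 1, mem9 k 1 _⟩
  obtain ⟨m, hm⟩ := hg X
  have h1 : op (aa k 0) • m = 0 := by
    apply psi_inj k D5 0 _ _ (h1_5 k) (h2_5 k)
    rw [map_zero]
    refine funext fun j => ?_
    rw [psi_smul]
    refine Finset.sum_eq_zero fun i _ => ?_
    by_cases hi : i = 0
    · subst hi
      obtain ⟨p, rfl⟩ := QQmk_surj k _ _ m
      rw [psi_mk, van5_a k p p.2 0 0 rfl, zero_mul]
    · rw [aa, Phi_gen_apply]
      have : ∀ i j : Fin 6, i ≠ 0 → D5.G (Gen.arr 0) i j = 0 := by decide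
      rw [this i j hi, Int.cast_zero, mul_zero]
  have h2 : g (op (aa k 0) • m) = op (aa k 0) • X := by rw [map_smul, hm]
  rw [h1, map_zero] at h2
  have h3 := congrArg (fun y => psi k D9 0 _ _ (h1_9 k) y 5) h2
  have h4 : psi k D9 0 _ _ (h1_9 k) (op (aa k 0) • X) 5 = 1 := by
    show Phi k D9 (bb k 0 * aa k 1 * bb k 1 * aa k 0) 0 5 = 1
    rw [row9_5, if_pos rfl]
  simp only [h4, map_zero] at h3
  exact zero_ne_one h3

/-! ### The word is reduced -/

/-- The positive roots. -/
def posRoots : Finset (Fin 4 → ℤ) := {![1,0,0,0], ![0,1,0,0], ![0,0,1,0], ![0,0,0,1],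
  ![1,1,0,0], ![1,0,1,0], ![1,0,0,1], ![1,1,1,0], ![1,1,0,1], ![1,0,1,1], ![1,1,1,1], ![2,1,1,1]}

theorem refl_pos : ∀ i : Fin 4, ∀ β ∈ posRoots, β ≠ Pi.single i 1 → srefl i β ∈ posRoots := by
  decide

theorem card_word : (posRoots.filter (fun β => wact word β ∉ posRoots)).card = 9 := by decide

theorem refl_refl (i : Fin 4) (v : Fin 4 → ℤ) : srefl i (srefl i v) = v := by
  funext j
  simp only [srefl, Fin.sum_univ_four]
  fin_cases i <;> fin_cases j <;> simp <;> ring

theorem wact_inj (l : List (Fin 4)) : Function.Injective (wact l) := by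
  induction l with
  | nil => exact Function.injective_id
  | cons i l ih =>
    have h : Function.Injective (srefl i) := fun x y hxy => by
      rw [← refl_refl i x, hxy, refl_refl]
    exact h.comp ih

theorem card_le (l : List (Fin 4)) :
    (posRoots.filter (fun β => wact l β ∉ posRoots)).card ≤ l.length := by
  induction l with
  | nil =>
    have : posRoots.filter (fun β => wact [] β ∉ posRoots) = ∅ := by
      rw [Finset.filter_eq_empty_iff]
      intro β hβ h
      exact h hβ
    rw [this]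
    rfl
  | cons i l ih =>
    have h1 : posRoots.filter (fun β => wact (i :: l) β ∉ posRoots) ⊆
        posRoots.filter (fun β => wact l β ∉ posRoots) ∪
          posRoots.filter (fun β => wact l β = Pi.single i 1) := by
      intro β hβ
      rw [Finset.mem_filter] at hβ
      rw [Finset.mem_union, Finset.mem_filter, Finset.mem_filter]
      by_contra h
      push Not at h
      have h2 : wact l β ∈ posRoots := by
        by_contra h3
        exact h3 (h.1 hβ.1)
      exact hβ.2 (refl_pos i _ h2 (h.2 hβ.1))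
    have h2 : (posRoots.filter (fun β => wact l β = Pi.single i 1)).card ≤ 1 := by
      rw [Finset.card_le_one]
      intro a ha b hb
      rw [Finset.mem_filter] at ha hb
      exact wact_inj l (ha.2.trans hb.2.symm)
    have h3 := (Finset.card_le_card h1).trans (Finset.card_union_le _ _)
    rw [List.length_cons]
    omega

theorem word_reduced : IsReducedWord word := by
  intro w' h
  have h1 := card_le w'
  rw [h, card_word] at h1
  exact h1

/-- Let `Π` be the preprojective algebra of type `D₄` over any field `k`, with central vertex `0`.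
For the reduced word `w = s₀ s₁ s₂ s₃ s₀ s₃ s₂ s₀ s₁` the modules `B₁, B₅, B₉` of its brick sequence
satisfy `dim B₅ = dim B₁ + dim B₉`, but there is no short exact sequence
`0 → B₁ → B₅ → B₉ → 0` of (right) `Π`-modules. -/
theorem result : IsReducedWord word ∧
    (∀ i : Fin 4, dimv k (B k word 5) i = dimv k (B k word 1) i + dimv k (B k word 9) i) ∧
    ¬ ∃ (f : B k word 1 →ₗ[(Pi4 k)ᵐᵒᵖ] B k word 5) (g : B k word 5 →ₗ[(Pi4 k)ᵐᵒᵖ] B k word 9),
      Function.Injective f ∧ Function.Exact f g ∧ Function.Surjective g := by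
  refine ⟨word_reduced, ?_, ?_⟩
  · intro i
    have h1 : dimv k (B k word 1) i = dimv k (BB k [] 0) i := rfl
    have h5 : dimv k (B k word 5) i = dimv k (BB k [3, 2, 1, 0] 0) i := rfl
    have h9 : dimv k (B k word 9) i = dimv k (BB k [0, 2, 3, 0, 3, 2, 1, 0] 1) i := rfl
    rw [h1, h5, h9, dim1, dim5, dim9]
    clear h1 h5 h9
    revert i
    decide
  · rintro ⟨f, g, -, -, hg⟩
    exact no_surj k g hg

end Pool.Agent.Results.MP_11aba7_al.TypeD4
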